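import Mathlib

/-!
The cardinal `ℶ_ω` is a singular strong limit cardinal.
-/

namespace Pool.Agent.H690R2.CL

open Cardinal Ordinal Order Set

universe u

theorem isSuccLimit_omega0 : IsSuccLimit (ω : Ordinal.{u}) := Ordinal.isSuccLimit_omega0

theorem exists_card : ∃ c : Cardinal.{u}, c.IsStrongLimit ∧ c.IsSingular := by
  refine ⟨ℶ_ ω, isStrongLimit_beth.2 Ordinal.isSuccLimit_omega0.isSuccPrelimit, ?_⟩
  have h0 : ℵ₀ < ℶ_ (ω : Ordinal.{u}) := by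
    rw [← beth_zero, beth_lt_beth]
    exact Ordinal.omega0_pos
  refine IsSingular.of_not_isRegular h0.le ?_
  intro hreg
  have h1 : ℶ_ (ω : Ordinal.{u}) = ⨆ a : Set.Iio (ω : Ordinal.{u}), ℶ_ (a : Ordinal) :=
    beth_limit Ordinal.isSuccLimit_omega0
  have h2 : ∀ n : ℕ, ℶ_ (n : Ordinal.{u}) < ℶ_ (ω : Ordinal.{u}) := fun n =>
    beth_lt_beth.2 (Ordinal.nat_lt_omega0 n)
  have h3 : (⨆ n : ULift.{u} ℕ, ℶ_ ((n.down : ℕ) : Ordinal.{u})) < ℶ_ (ω : Ordinal.{u}) := by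
    refine Cardinal.iSup_lt_of_lt_cof_ord ?_ fun n => h2 n.down
    rw [hreg.cof_ord]
    simpa using h0
  have h4 : (⨆ a : Set.Iio (ω : Ordinal.{u}), ℶ_ (a : Ordinal)) ≤
      ⨆ n : ULift.{u} ℕ, ℶ_ ((n.down : ℕ) : Ordinal.{u}) := by
    refine ciSup_le' fun a => ?_
    obtain ⟨n, hn⟩ := Ordinal.lt_omega0.1 a.2
    rw [hn]
    exact le_ciSup (f := fun n : ULift.{u} ℕ => ℶ_ ((n.down : ℕ) : Ordinal.{u}))
      (Cardinal.bddAbove_range _) ⟨n⟩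
  exact absurd (h1 ▸ h4) (not_le.2 h3)

theorem exists_type : ∃ X : Type u, (#X).IsStrongLimit ∧ (#X).IsSingular := by
  obtain ⟨c, h⟩ := exists_card.{u}
  exact ⟨c.out, by rwa [Cardinal.mk_out]⟩

end Pool.Agent.H690R2.CL
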