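import Mathlib
import Pool.Agent.Results.MP_174cbb_lc.Regular

/-!
# Generated clones, and clones without a precomplete clone above them
-/

set_option autoImplicit false

namespace Pool.Agent.H690R2.CL

open Set Pool.Agent.Results.MP_174cbb_lc.Regular

universe u

variable {X : Type u}

/-- the clone generated by a set of operations -/
def gen (S : Set (Oper X)) : Set (Oper X) := {p | ∀ D : Set (Oper X), IsClone D → S ⊆ D → p ∈ D}

theorem isClone_gen (S : Set (Oper X)) : IsClone (gen S) :=
  ⟨fun n i D hD _ => hD.1 n i, fun n m f g hf hg D hD hS =>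
    hD.2 n m f g (hf D hD hS) fun i => hg i D hD hS⟩

theorem subset_gen (S : Set (Oper X)) : S ⊆ gen S := fun _ hp _ _ hS => hS hp

theorem gen_subset {S D : Set (Oper X)} (hD : IsClone D) (h : S ⊆ D) : gen S ⊆ D :=
  fun _ hp => hp D hD h

theorem gen_mono {S T : Set (Oper X)} (h : S ⊆ T) : gen S ⊆ gen T :=
  gen_subset (isClone_gen T) (h.trans (subset_gen T))

/-- the unary operation `f` belongs to `D` -/
def U (D : Set (Oper X)) (f : X → X) : Prop := (⟨0, fun x => f (x 0)⟩ : Oper X) ∈ D

/-- the binary operation `f` belongs to `D` -/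
def B (D : Set (Oper X)) (f : X → X → X) : Prop := (⟨1, fun x => f (x 0) (x 1)⟩ : Oper X) ∈ D

/-- the ternary operation `f` belongs to `D` -/
def T (D : Set (Oper X)) (f : X → X → X → X) : Prop :=
  (⟨2, fun x => f (x 0) (x 1) (x 2)⟩ : Oper X) ∈ D

theorem U.mono {D E : Set (Oper X)} {f : X → X} (h : U D f) (hDE : D ⊆ E) : U E f := hDE h
theorem B.mono {D E : Set (Oper X)} {f : X → X → X} (h : B D f) (hDE : D ⊆ E) : B E f := hDE h
theorem T.mono {D E : Set (Oper X)} {f : X → X → X → X} (h : T D f) (hDE : D ⊆ E) : T E f := hDE h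

section

variable {D : Set (Oper X)} (hD : IsClone D)
include hD

theorem comp_mem {n : ℕ} {f : (Fin (n + 1) → X) → X} (hf : (⟨n, f⟩ : Oper X) ∈ D)
    {s : Fin (n + 1) → X → X} (hs : ∀ k, U D (s k)) : U D fun x => f fun k => s k x :=
  hD.2 n 0 f (fun k x => s k (x 0)) hf hs

theorem U_id : U D id := hD.1 0 0

theorem U_comp {f g : X → X} (hf : U D f) (hg : U D g) : U D fun x => f (g x) :=
  comp_mem hD (n := 0) (f := fun x => f (x 0)) hf (s := fun _ => g) fun _ => hg

theorem B_comp {f : X → X → X} {g h : X → X} (hf : B D f) (hg : U D g) (hh : U D h) :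
    U D fun x => f (g x) (h x) := by
  have := comp_mem hD (n := 1) (f := fun x => f (x 0) (x 1)) hf (s := ![g, h]) (by
    intro k
    fin_cases k
    · exact hg
    · exact hh)
  exact this

theorem T_comp {f : X → X → X → X} {g h k : X → X} (hf : T D f) (hg : U D g) (hh : U D h)
    (hk : U D k) : U D fun x => f (g x) (h x) (k x) := by
  have := comp_mem hD (n := 2) (f := fun x => f (x 0) (x 1) (x 2)) hf (s := ![g, h, k]) (by
    intro j
    fin_cases j
    · exact hg
    · exact hh
    · exact hk)
  exact this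

/-- coding of tuples -/
theorem exists_code {p : X → X → X} (hp : B D p) (hinj : ∀ a b c d, p a b = p c d → a = c ∧ b = d)
    (n : ℕ) : ∃ e : (Fin (n + 1) → X) → X, Function.Injective e ∧ (⟨n, e⟩ : Oper X) ∈ D := by
  induction n with
  | zero =>
    refine ⟨fun x => x 0, ?_, hD.1 0 0⟩
    intro x y h
    funext i
    have hi : i = 0 := Fin.fin_one_eq_zero i
    rw [hi]
    exact h
  | succ n ih =>
    obtain ⟨e, he, heD⟩ := ih
    refine ⟨fun x => p (e fun i => x i.castSucc) (x (Fin.last (n + 1))), ?_, ?_⟩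
    · intro x y h
      obtain ⟨h1, h2⟩ := hinj _ _ _ _ h
      have h3 := he h1
      funext i
      induction i using Fin.lastCases with
      | last => exact h2
      | cast i => exact congrFun h3 i
    · have h1 : (⟨n + 1, fun x => e fun i => x i.castSucc⟩ : Oper X) ∈ D :=
        hD.2 n (n + 1) e (fun i x => x i.castSucc) heD fun i => hD.1 (n + 1) i.castSucc
      exact hD.2 1 (n + 1) (fun x => p (x 0) (x 1))
        (fun k => if k = 0 then (fun x => e fun i => x i.castSucc) else fun x => x (Fin.last (n + 1)))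
        hp (by
          intro k
          fin_cases k
          · exact h1
          · exact hD.1 (n + 1) (Fin.last (n + 1)))

theorem eq_univ_of_unary {p : X → X → X} (hp : B D p)
    (hinj : ∀ a b c d, p a b = p c d → a = c ∧ b = d) (hu : ∀ f : X → X, U D f) : D = univ := by
  refine eq_univ_of_forall ?_
  rintro ⟨n, f⟩
  obtain ⟨e, he, heD⟩ := exists_code hD hp hinj n
  rcases isEmpty_or_nonempty X with hX | hX
  · have : f = fun x => x 0 := by
      funext x
      exact (hX.false (x 0)).elim
    rw [this]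
    exact hD.1 n 0
  · have h1 : f = fun x => (fun y => f (Function.invFun e y)) (e x) := by
      funext x
      show f x = f (Function.invFun e (e x))
      rw [Function.leftInverse_invFun he x]
    rw [h1]
    exact hD.2 0 n (fun y => f (Function.invFun e (y 0))) (fun _ => e)
      (hu fun y => f (Function.invFun e y)) fun _ => heD

end

/-- the union of a nonempty chain of clones is a clone -/
theorem isClone_sUnion {c : Set (Set (Oper X))} (hc : ∀ D ∈ c, IsClone D)
    (hch : DirectedOn (· ⊆ ·) c) (hne : c.Nonempty) : IsClone (⋃₀ c) := by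
  obtain ⟨D0, hD0⟩ := hne
  refine ⟨fun n i => ⟨D0, hD0, (hc D0 hD0).1 n i⟩, fun n m f g hf hg => ?_⟩
  have hfin : ({(⟨n, f⟩ : Oper X)} ∪ range fun i => (⟨m, g i⟩ : Oper X)).Finite :=
    (finite_singleton _).union (finite_range _)
  have hsub : ({(⟨n, f⟩ : Oper X)} ∪ range fun i => (⟨m, g i⟩ : Oper X)) ⊆ ⋃₀ c := by
    rintro x (rfl | ⟨i, rfl⟩)
    · exact hf
    · exact hg i
  obtain ⟨D, hD, hDs⟩ := hch.exists_mem_subset_of_finite_of_subset_sUnion ⟨D0, hD0⟩ hfin hsub
  exact ⟨D, hD, (hc D hD).2 n m f g (hDs (Or.inl rfl)) fun i => hDs (Or.inr ⟨i, rfl⟩)⟩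

/-- a clone, different from the clone of all operations, with no precomplete clone above it -/
structure NP (C : Set (Oper X)) : Prop where
  clone : IsClone C
  ne : C ≠ univ
  no : ∀ M : Set (Oper X), IsPrecomplete M → ¬ C ⊆ M

theorem NP.mono {C D : Set (Oper X)} (h : NP C) (hD : IsClone D) (hne : D ≠ univ) (hCD : C ⊆ D) :
    NP D := ⟨hD, hne, fun M hM hDM => h.no M hM (hCD.trans hDM)⟩

/-- adding one operation -/
theorem NP.insert {C : Set (Oper X)} (h : NP C) (H : Oper X) : NP (gen (insert H C)) := by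
  refine h.mono (isClone_gen _) ?_ ((subset_insert _ _).trans (subset_gen _))
  intro htop
  by_cases hH : H ∈ C
  · have h1 : gen (Insert.insert H C) ⊆ C := gen_subset h.clone (insert_subset hH le_rfl)
    rw [htop] at h1
    exact h.ne (univ_subset_iff.1 h1)
  · obtain ⟨M, hCM, hM⟩ := zorn_subset_nonempty {D : Set (Oper X) | IsClone D ∧ H ∉ D} (by
      intro c hc hch hne
      refine ⟨⋃₀ c, ⟨isClone_sUnion (fun D hD => (hc hD).1) hch.directedOn hne, ?_⟩,
        fun s hs => subset_sUnion_of_mem hs⟩
      rintro ⟨D, hD, hHD⟩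
      exact (hc hD).2 hHD) C ⟨h.clone, hH⟩
    refine h.no M ⟨hM.prop.1, ?_, ?_⟩ hCM
    · intro hMt
      exact hM.prop.2 (hMt ▸ mem_univ H)
    · intro D hD hMD
      have hHD : H ∈ D := by
        by_contra hHD
        exact hMD.2 (hM.le_of_ge (show IsClone D ∧ H ∉ D from ⟨hD, hHD⟩) hMD.1)
      have h2 : gen (Insert.insert H C) ⊆ D := gen_subset hD (insert_subset hHD (hCM.trans hMD.1))
      rw [htop] at h2
      exact univ_subset_iff.1 h2

/-- constant operations -/
def cst (x : X) : Oper X := ⟨0, fun _ => x⟩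

theorem NP.finset {C : Set (Oper X)} (h : NP C) (F : Finset X) :
    NP (gen (C ∪ cst '' (F : Set X))) := by
  classical
  induction F using Finset.induction_on with
  | empty =>
    have : gen (C ∪ cst '' ((∅ : Finset X) : Set X)) = C := by
      simp only [Finset.coe_empty, image_empty, union_empty]
      exact subset_antisymm (gen_subset h.clone le_rfl) (subset_gen C)
    rw [this]
    exact h
  | insert a F _ ih =>
    have h1 := ih.insert (cst a)
    have h2 : gen (Insert.insert (cst a) (gen (C ∪ cst '' (F : Set X)))) =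
        gen (C ∪ cst '' ((Insert.insert a F : Finset X) : Set X)) := by
      apply subset_antisymm
      · refine gen_subset (isClone_gen _) (insert_subset ?_ (gen_mono ?_))
        · exact subset_gen _ (Or.inr ⟨a, by simp, rfl⟩)
        · refine union_subset_union_right _ (image_mono ?_)
          simp
      · refine gen_subset (isClone_gen _) ?_
        rintro x (hx | ⟨y, hy, rfl⟩)
        · exact subset_gen _ (Or.inr (subset_gen _ (Or.inl hx)))
        · rcases Finset.mem_insert.1 (Finset.mem_coe.1 hy) with rfl | hy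
          · exact subset_gen _ (Or.inl rfl)
          · exact subset_gen _ (Or.inr (subset_gen _ (Or.inr ⟨y, hy, rfl⟩)))
    rwa [h2] at h1

/-- adding all constants -/
theorem NP.consts {C : Set (Oper X)} [Infinite X] (h : NP C) {p : X → X → X} (hp : B C p)
    (hinj : ∀ a b c d, p a b = p c d → a = c ∧ b = d) : NP (gen (C ∪ range cst)) := by
  classical
  refine h.mono (isClone_gen _) ?_ (subset_union_left.trans (subset_gen _))
  intro htop
  let Df : Finset X → Set (Oper X) := fun F => gen (C ∪ cst '' (F : Set X))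
  have hmono : ∀ F G : Finset X, F ⊆ G → Df F ⊆ Df G := fun F G hFG =>
    gen_mono (union_subset_union_right _ (image_mono (Finset.coe_subset.2 hFG)))
  have hun : IsClone (⋃₀ range Df) := by
    refine isClone_sUnion ?_ ?_ (range_nonempty _)
    · rintro _ ⟨F, rfl⟩
      exact isClone_gen _
    · rintro _ ⟨F, rfl⟩ _ ⟨G, rfl⟩
      exact ⟨Df (F ∪ G), ⟨_, rfl⟩, hmono _ _ Finset.subset_union_left,
        hmono _ _ Finset.subset_union_right⟩
  have hall : ∀ q : Oper X, ∃ F, q ∈ Df F := by
    intro q
    have h1 : gen (C ∪ range cst) ⊆ ⋃₀ range Df := by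
      refine gen_subset hun ?_
      rintro x (hx | ⟨y, rfl⟩)
      · exact ⟨Df ∅, ⟨_, rfl⟩, subset_gen _ (Or.inl hx)⟩
      · exact ⟨Df {y}, ⟨_, rfl⟩, subset_gen _ (Or.inr ⟨y, by simp, rfl⟩)⟩
    rw [htop] at h1
    obtain ⟨_, ⟨F, rfl⟩, hF⟩ := h1 (mem_univ q)
    exact ⟨F, hF⟩
  -- a surjection onto the finite sets
  have hcard : Cardinal.mk (Finset X) = Cardinal.mk X := Cardinal.mk_finset_of_infinite X
  obtain ⟨S⟩ := Cardinal.eq.1 hcard.symm
  have hex : ∀ x : X, ∃ f : X → X, ¬ U (Df (Insert.insert x (S x))) f := by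
    intro x
    by_contra hcon
    push Not at hcon
    have hne := (h.finset (Insert.insert x (S x))).ne
    exact hne (eq_univ_of_unary (isClone_gen _) (hp.mono (subset_union_left.trans (subset_gen _)))
      hinj hcon)
  choose f hf using hex
  obtain ⟨F0, hF0⟩ := hall ⟨1, fun x => f (x 0) (x 1)⟩
  obtain ⟨x, hx⟩ := S.surjective F0
  have hD : IsClone (Df (Insert.insert x (S x))) := isClone_gen _
  have hG : B (Df (Insert.insert x (S x))) f := by
    refine hmono F0 _ ?_ hF0
    rw [hx]
    exact Finset.subset_insert _ _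
  have hc : U (Df (Insert.insert x (S x))) fun _ => x :=
    subset_gen _ (Or.inr ⟨x, by simp, rfl⟩)
  exact hf x (B_comp hD hG hc (U_id hD))

end Pool.Agent.H690R2.CL
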