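import Mathlib
import Pool.Agent.H690R2.CL.Gen

/-!
# The main argument
-/

set_option autoImplicit false

namespace Pool.Agent.H690R2.CL

open Set Pool.Agent.Results.MP_174cbb_lc.Regular

universe u

/-- The combinatorial data on a set of singular strong limit cardinality. -/
structure Data (X I : Type u) [LinearOrder I] where
  w : I → X
  w_inj : Function.Injective w
  z : X
  w_ne : ∀ i, w i ≠ z
  A : I → Set X
  A_mono : Monotone A
  lev : X → I
  mem_lev : ∀ x, x ∈ A (lev x)
  w_mem : ∀ i j, w i ∈ A j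
  z_mem : ∀ j, z ∈ A j
  q : Set I → X
  q_inj : Function.Injective q
  q_mem : ∀ Y j, q Y ∈ A j
  small : ∀ S : Set I, ¬ IsCofinal S → ∀ f : I → X, ∃ j, ∀ i ∈ S, f i ∈ A j
  e : I → X → X → X
  g : I → I
  e_surj : ∀ (j : I) (f : X → X), (∀ x, x ∉ A j → f x = z) → (∀ x, f x ∈ A j) →
    ∃ c ∈ A (g j), e j c = f

variable {X I : Type u} [LinearOrder I] (d : Data X I)

namespace Data

open Classical in
/-- inverse of `w` -/
noncomputable def wi (x : X) (h : x ∈ range d.w) : I := h.choose

theorem w_wi (x : X) (h : x ∈ range d.w) : d.w (d.wi x h) = x := h.choose_spec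

theorem wi_w (i : I) (h : d.w i ∈ range d.w) : d.wi (d.w i) h = i := d.w_inj (d.w_wi _ h)

open Classical in
/-- extension of a function on `I` to a function on `X` -/
noncomputable def ex (f : I → X) (x : X) : X := if h : x ∈ range d.w then f (d.wi x h) else d.z

theorem ex_w (f : I → X) (i : I) : d.ex f (d.w i) = f i := by
  unfold ex
  rw [dif_pos ⟨i, rfl⟩, wi_w]

theorem ex_not (f : I → X) {x : X} (h : x ∉ range d.w) : d.ex f x = d.z := dif_neg h

theorem z_not : d.z ∉ range d.w := by
  rintro ⟨i, hi⟩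
  exact d.w_ne i hi

open Classical in
/-- the ternary operation -/
noncomputable def E (x c y : X) : X := if h : x ∈ range d.w then d.e (d.wi x h) c y else d.z

theorem E_w (i : I) (c y : X) : d.E (d.w i) c y = d.e i c y := by
  unfold E
  rw [dif_pos ⟨i, rfl⟩, wi_w]

theorem E_z (c y : X) : d.E d.z c y = d.z := dif_neg d.z_not

/-- the unary operation -/
noncomputable def rho (x : X) : X := d.w (d.lev x)

/-- the bounded functions -/
def Bd (f : X → X) : Prop := ∃ j, (∀ x, x ∉ d.A j → f x = d.z) ∧ ∀ x, f x ∈ d.A j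

/-- `D` contains the basic functions -/
structure Good (D : Set (Oper X)) : Prop where
  clone : IsClone D
  cst : ∀ x, U D fun _ => x
  E : T D d.E
  rho : U D d.rho

variable {d}

theorem Good.bd {D : Set (Oper X)} (h : d.Good D) {f : X → X} (hf : d.Bd f) : U D f := by
  obtain ⟨j, h1, h2⟩ := hf
  obtain ⟨c, _, hc⟩ := d.e_surj j f h1 h2
  have h3 := T_comp h.clone h.E (h.cst (d.w j)) (h.cst c) (U_id h.clone)
  have h4 : (fun x => d.E (d.w j) c (id x)) = f := by
    funext x
    rw [E_w, hc]
    rfl
  rwa [h4] at h3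

theorem Good.mono {D D' : Set (Oper X)} (h : d.Good D) (hD' : IsClone D') (hDD : D ⊆ D') :
    d.Good D' := ⟨hD', fun x => (h.cst x).mono hDD, h.E.mono hDD, h.rho.mono hDD⟩

/-- a function from `I` to an `A j`, extended to `X`, is bounded -/
theorem bd_ex {f : I → X} {j : I} (hf : ∀ i, f i ∈ d.A j) : d.Bd (d.ex f) := by
  refine ⟨j, fun x hx => d.ex_not _ ?_, fun x => ?_⟩
  · rintro ⟨i, rfl⟩
    exact hx (d.w_mem i j)
  · by_cases h : x ∈ range d.w
    · obtain ⟨i, rfl⟩ := h
      rw [ex_w]
      exact hf i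
    · rw [ex_not _ _ h]
      exact d.z_mem j

/-- reparametrizations are bounded -/
theorem bd_rep [Nonempty I] (f : I → I) (S : Set I) [DecidablePred (· ∈ S)] :
    d.Bd (d.ex fun i => if i ∈ S then d.w (f i) else d.z) := by
  obtain ⟨j⟩ := (inferInstance : Nonempty I)
  refine bd_ex (j := j) fun i => ?_
  split_ifs
  · exact d.w_mem _ _
  · exact d.z_mem _

/-- if all functions supported on the range of `w` belong to `D`, then all unary functions do -/
theorem Good.unary {D : Set (Oper X)} (h : d.Good D) (ha : ∀ a : I → X, U D (d.ex a))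
    (u : X → X) : U D u := by
  classical
  -- the first auxiliary function
  let m : X → I := fun x => max (d.lev x) (d.lev (u x))
  have h1 : ∀ i : I, ∃ c, d.e i c = fun x => if d.lev x = i then d.w (m x) else d.z := by
    intro i
    obtain ⟨c, _, hc⟩ := d.e_surj i (fun x => if d.lev x = i then d.w (m x) else d.z)
      (fun x hx => if_neg (fun h2 => hx (by rw [← h2]; exact d.mem_lev x))) (fun x => by
        show (if d.lev x = i then d.w (m x) else d.z) ∈ d.A i
        split_ifs
        · exact d.w_mem _ _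
        · exact d.z_mem _)
    exact ⟨c, hc⟩
  choose a' ha' using h1
  have h2 : U D fun x => d.w (m x) := by
    have h3 := T_comp h.clone h.E h.rho (U_comp h.clone (ha a') h.rho) (U_id h.clone)
    have h4 : (fun x => d.E (d.rho x) (d.ex a' (d.rho x)) (id x)) = fun x => d.w (m x) := by
      funext x
      show d.E (d.w (d.lev x)) (d.ex a' (d.w (d.lev x))) x = d.w (m x)
      rw [E_w, ex_w, ha']
      exact if_pos rfl
    rwa [h4] at h3
  have h5 : ∀ i : I, ∃ c, d.e i c = fun x => if m x = i then u x else d.z := by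
    intro i
    obtain ⟨c, _, hc⟩ := d.e_surj i (fun x => if m x = i then u x else d.z)
      (fun x hx => if_neg (fun h2 => hx (by
        rw [← h2]
        exact d.A_mono (le_max_left _ _) (d.mem_lev x)))) (fun x => by
        show (if m x = i then u x else d.z) ∈ d.A i
        split_ifs with h2
        · rw [← h2]
          exact d.A_mono (le_max_right _ _) (d.mem_lev (u x))
        · exact d.z_mem _)
    exact ⟨c, hc⟩
  choose a hac using h5
  have h6 := T_comp h.clone h.E h2 (U_comp h.clone (ha a) h2) (U_id h.clone)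
  have h7 : (fun x => d.E (d.w (m x)) (d.ex a (d.w (m x))) (id x)) = u := by
    funext x
    rw [E_w, ex_w, hac]
    exact if_pos rfl
  rwa [h7] at h6

/-- reduction of functions on `I` to functions on a cofinal set -/
theorem Good.of_cofinal {D : Set (Oper X)} (h : d.Good D) {Y : Set I} (hY : IsCofinal Y)
    (a : I → X) : ∃ (j : I → I) (c : I → X), (∀ i, j i ∈ Y) ∧ (∀ k, c k ∈ d.A (d.g k)) ∧
      ∀ f : X → X, U D f → (∀ k ∈ Y, f (d.w k) = c k) → U D (d.ex a) := by
  classical
  have h1 : ∀ i, ∃ k ∈ Y, d.lev (a i) ≤ k := fun i => hY _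
  choose j hj1 hj2 using h1
  have h2 : ∀ k : I, ∃ c ∈ d.A (d.g k), d.e k c = d.ex fun i => if j i = k then a i else d.z := by
    intro k
    refine d.e_surj k _ (fun x hx => d.ex_not _ ?_) fun x => ?_
    · rintro ⟨i, rfl⟩
      exact hx (d.w_mem i k)
    · by_cases hx : x ∈ range d.w
      · obtain ⟨i, rfl⟩ := hx
        rw [ex_w]
        split_ifs with h3
        · rw [← h3]
          exact d.A_mono (hj2 i) (d.mem_lev _)
        · exact d.z_mem _
      · rw [ex_not _ _ hx]
        exact d.z_mem k
  choose c hc1 hc2 using h2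
  refine ⟨j, c, hj1, hc1, fun f hf hfc => ?_⟩
  rcases isEmpty_or_nonempty I with hI | hI
  · have : d.ex a = fun _ => d.z := by
      funext x
      refine d.ex_not _ ?_
      rintro ⟨i, _⟩
      exact hI.false i
    rw [this]
    exact h.cst _
  · have hJ : U D (d.ex fun i => d.w (j i)) := by
      refine h.bd ?_
      have := bd_rep (d := d) j univ
      simpa using this
    have h3 := T_comp h.clone h.E hJ (U_comp h.clone hf hJ) (U_id h.clone)
    have h4 : (fun x => d.E (d.ex (fun i => d.w (j i)) x) (f (d.ex (fun i => d.w (j i)) x)) (id x)) =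
        d.ex a := by
      funext x
      by_cases hx : x ∈ range d.w
      · obtain ⟨i, rfl⟩ := hx
        rw [ex_w, ex_w, E_w, hfc _ (hj1 i), hc2]
        show d.ex _ (d.w i) = _
        rw [ex_w, if_pos rfl]
      · rw [ex_not _ _ hx, ex_not _ _ hx, E_z]
    rwa [h4] at h3

/-- the property of a clone used in the construction of a precomplete clone -/
def P (d : Data X I) (b : I → X) (D : Set (Oper X)) : Prop :=
  ∀ s : X → X, U D s → ¬ IsCofinal {i | s (d.w i) = b i}

/-- the diagonal sequence -/
theorem Good.exists_b [Nonempty I] {D : Set (Oper X)} (h : d.Good D) {p : X → X → X} (hp : B D p)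
    (hinj : ∀ a b c d, p a b = p c d → a = c ∧ b = d) (hne : D ≠ univ) : ∃ b : I → X, P d b D := by
  classical
  have h1 : ∃ a : I → X, ¬ U D (d.ex a) := by
    by_contra hcon
    push Not at hcon
    exact hne (eq_univ_of_unary h.clone hp hinj fun f => h.unary hcon f)
  obtain ⟨a, ha⟩ := h1
  have h2 : ∀ Y : Set I, ∃ c : I → X, (∀ k, c k ∈ d.A (d.g k)) ∧ (IsCofinal Y →
      ∀ f : X → X, U D f → ¬ ∀ k ∈ Y, f (d.w k) = c k) := by
    intro Y
    by_cases hY : IsCofinal Y
    · obtain ⟨j, c, _, hc, hf⟩ := h.of_cofinal hY a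
      exact ⟨c, hc, fun _ f hfD hfc => ha (hf f hfD hfc)⟩
    · exact ⟨fun _ => d.z, fun k => d.z_mem _, fun hY' => absurd hY' hY⟩
  choose c hc1 hc2 using h2
  -- code of the function `q Y ↦ c Y i`
  have h3 : ∀ i : I, ∃ b, d.e (d.g i) b = fun x => if hx : ∃ Y, d.q Y = x then c hx.choose i
      else d.z := by
    intro i
    obtain ⟨b, _, hb⟩ := d.e_surj (d.g i) (fun x => if hx : ∃ Y, d.q Y = x then c hx.choose i
      else d.z) (fun x hx => dif_neg (by
        rintro ⟨Y, rfl⟩
        exact hx (d.q_mem Y _))) (fun x => by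
        show (if hx : ∃ Y, d.q Y = x then c hx.choose i else d.z) ∈ d.A (d.g i)
        split_ifs
        · exact hc1 _ _
        · exact d.z_mem _)
    exact ⟨b, hb⟩
  choose b hb using h3
  refine ⟨b, fun s hs hcof => ?_⟩
  set Y := {i | s (d.w i) = b i} with hY
  have hL : U D (d.ex fun i => d.w (d.g i)) := by
    refine h.bd ?_
    have := bd_rep (d := d) d.g univ
    simpa using this
  have h4 := T_comp h.clone h.E hL hs (h.cst (d.q Y))
  refine hc2 Y hcof _ h4 fun k hk => ?_
  have hk' : s (d.w k) = b k := hk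
  show d.E (d.ex (fun i => d.w (d.g i)) (d.w k)) (s (d.w k)) (d.q Y) = c Y k
  rw [ex_w, E_w, hk', hb]
  have hx : ∃ Y', d.q Y' = d.q Y := ⟨Y, rfl⟩
  show (if hx : ∃ Y', d.q Y' = d.q Y then c hx.choose k else d.z) = c Y k
  rw [dif_pos hx]
  have := d.q_inj hx.choose_spec
  rw [this]

open Classical in
/-- the operation that decodes -/
noncomputable def dec (d : Data X I) (b c : I → X) (x y : X) : X :=
  if h : x ∈ range d.w then (if y = b (d.wi x h) then c (d.wi x h) else d.z) else d.z

open Classical in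
theorem dec_w (b c : I → X) (i : I) (y : X) :
    dec d b c (d.w i) y = if y = b i then c i else d.z := by
  unfold dec
  rw [dif_pos ⟨i, rfl⟩, wi_w]

theorem dec_not (b c : I → X) {x : X} (h : x ∉ range d.w) (y : X) : dec d b c x y = d.z :=
  dif_neg h

/-- the decoding operation is harmless -/
theorem Good.dec_harmless [Nonempty I] {D : Set (Oper X)} (h : d.Good D) {b : I → X}
    (hP : P d b D) (c : I → X) :
    P d b (gen (insert ⟨1, fun x => dec d b c (x 0) (x 1)⟩ D)) := by
  classical
  let E' : Set (Oper X) := {p | ∀ s : Fin (p.1 + 1) → X → X, (∀ k, U D (s k)) →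
    ∃ s' : X → X, U D s' ∧ ∀ i, p.2 (fun k => s k (d.w i)) = s' (d.w i)}
  have hE' : IsClone E' := by
    refine ⟨fun n i s hs => ⟨s i, hs i, fun _ => rfl⟩, fun n m f g hf hg s hs => ?_⟩
    have h1 := fun i => hg i s hs
    choose s' hs' hs'' using h1
    obtain ⟨t, ht, ht'⟩ := hf s' hs'
    refine ⟨t, ht, fun i => ?_⟩
    rw [← ht' i]
    show f (fun j => g j fun k => s k (d.w i)) = f fun k => s' k (d.w i)
    congr 1
    funext j
    exact hs'' j i
  have hDE : D ⊆ E' := by
    rintro ⟨n, f⟩ hf s hs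
    exact ⟨_, comp_mem h.clone hf hs, fun i => rfl⟩
  have hF : (⟨1, fun x => dec d b c (x 0) (x 1)⟩ : Oper X) ∈ E' := by
    intro s hs
    -- the set of relevant indices
    let S : Set I := {j | ∃ i, s 0 (d.w i) = d.w j ∧ s 1 (d.w i) = b j}
    have hS : ¬ IsCofinal S := by
      intro hcof
      let τ : I → I := fun j => if hj : j ∈ S then hj.choose else j
      have hτ : U D (d.ex fun i => d.w (τ i)) := by
        refine h.bd ?_
        have := bd_rep (d := d) τ univ
        simpa using this
      refine hP _ (U_comp h.clone (hs 1) hτ) (hcof.mono fun j hj => ?_)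
      show s 1 (d.ex (fun i => d.w (τ i)) (d.w j)) = b j
      rw [ex_w]
      have h1 : τ j = (show ∃ i, s 0 (d.w i) = d.w j ∧ s 1 (d.w i) = b j from hj).choose :=
        dif_pos hj
      rw [h1]
      exact (show ∃ i, s 0 (d.w i) = d.w j ∧ s 1 (d.w i) = b j from hj).choose_spec.2
    obtain ⟨j, hj⟩ := d.small S hS c
    have hval : ∀ i, dec d b c (s 0 (d.w i)) (s 1 (d.w i)) ∈ d.A j := by
      intro i
      by_cases hx : s 0 (d.w i) ∈ range d.w
      · obtain ⟨k, hk⟩ := hx
        rw [← hk, dec_w]
        split_ifs with h2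
        · exact hj k ⟨i, hk.symm, h2⟩
        · exact d.z_mem j
      · rw [dec_not _ _ hx]
        exact d.z_mem j
    refine ⟨d.ex fun i => dec d b c (s 0 (d.w i)) (s 1 (d.w i)), h.bd (bd_ex hval), fun i => ?_⟩
    rw [ex_w]
  intro s hs hcof
  have h1 := gen_subset hE' (insert_subset hF hDE) hs
  obtain ⟨s', hs', hs''⟩ := h1 (fun _ => id) fun _ => U_id h.clone
  refine hP s' hs' (hcof.mono fun i hi => ?_)
  show s' (d.w i) = b i
  rw [← hs'' i]
  exact hi

/-- **The main argument**: above a good proper clone there is a precomplete clone. -/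
theorem Good.exists_precomplete [Nonempty I] {D : Set (Oper X)} (h : d.Good D) {p : X → X → X}
    (hp : B D p) (hinj : ∀ a b c d, p a b = p c d → a = c ∧ b = d) (hne : D ≠ univ) :
    ∃ M : Set (Oper X), IsPrecomplete M ∧ D ⊆ M := by
  classical
  obtain ⟨b, hb⟩ := h.exists_b hp hinj hne
  obtain ⟨M, hDM, hM⟩ := zorn_subset_nonempty {M : Set (Oper X) | IsClone M ∧ P d b M} (by
    intro c hc hch hcne
    refine ⟨⋃₀ c, ⟨isClone_sUnion (fun D hD => (hc hD).1) hch.directedOn hcne, ?_⟩,
      fun s hs => subset_sUnion_of_mem hs⟩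
    rintro s ⟨M, hM, hs⟩
    exact (hc hM).2 s hs) D ⟨h.clone, hb⟩
  have hMg : d.Good M := h.mono hM.prop.1 hDM
  refine ⟨M, ⟨hM.prop.1, ?_, ?_⟩, hDM⟩
  · intro hMt
    have hu : U M (d.ex b) := by rw [hMt]; exact mem_univ _
    refine hM.prop.2 _ hu ?_
    have : {i | d.ex b (d.w i) = b i} = univ := by
      ext i
      simp [ex_w]
    rw [this]
    exact IsCofinal.univ
  · intro M' hM' hMM'
    have hM'g : d.Good M' := hMg.mono hM' hMM'.1
    -- the property fails for `M'`
    have hnP : ¬ P d b M' := by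
      intro hP
      exact hMM'.2 (hM.le_of_ge (show IsClone M' ∧ P d b M' from ⟨hM', hP⟩) hMM'.1)
    unfold P at hnP
    push Not at hnP
    obtain ⟨s, hs, hcof⟩ := hnP
    refine eq_univ_of_unary hM' (hp.mono (hDM.trans hMM'.1)) hinj fun u => hM'g.unary (fun a => ?_) u
    obtain ⟨j, c, _, _, hf⟩ := hM'g.of_cofinal hcof a
    -- the decoding operation
    have hdec : B M (dec d b c) := by
      have h1 := hMg.dec_harmless hM.prop.2 c
      have h2 := hM.le_of_ge (show IsClone _ ∧ P d b _ from ⟨isClone_gen _, h1⟩)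
        ((subset_insert _ _).trans (subset_gen _))
      exact h2 (subset_gen _ (mem_insert _ _))
    refine hf _ (B_comp hM' (hdec.mono hMM'.1) (U_id hM') hs) fun k hk => ?_
    show dec d b c (d.w k) (s (d.w k)) = c k
    rw [dec_w]
    exact if_pos hk

end Data

end Pool.Agent.H690R2.CL
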