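import Mathlib
import Pool.Agent.H690R2.CL.Core

/-!
# The data on a set of singular strong limit cardinality
-/

set_option autoImplicit false

namespace Pool.Agent.H690R2.CL

open Set Cardinal Pool.Agent.Results.MP_174cbb_lc.Regular

universe u

variable {X : Type u}

theorem exists_data (hs : (#X).IsStrongLimit) (hsing : (#X).IsSingular) :
    ∃ (I : Type u) (_ : LinearOrder I) (_ : Nonempty I), Nonempty (Data X I) := by
  classical
  obtain ⟨_, _, hord⟩ := Cardinal.exists_ord_eq_type_lt X
  obtain ⟨s, hsc, hst⟩ := Ordinal.exists_ord_cof_eq X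
  have hinf : ℵ₀ ≤ #X := hs.aleph0_le
  have hcofX : (#X).ord.cof = Order.cof X := by rw [hord, Ordinal.cof_type]
  have hcard : #s = Order.cof X := by
    have := congrArg Ordinal.card hst
    rwa [Ordinal.card_type, Cardinal.card_ord] at this
  have hlt : #s < #X := by
    rw [hcard, ← hcofX]
    exact hsing.cof_ord_lt
  have hcofs : Order.cof s = #s := by rw [Order.cof_eq_of_isCofinal hsc, hcard]
  have hsord : (#s).ord = Ordinal.type (α := s) (· < ·) := by rw [hcard, hst]
  -- the point outside of `s`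
  have hz : ∃ z : X, z ∉ s := by
    by_contra hcon
    push Not at hcon
    have : s = Set.univ := Set.eq_univ_of_forall hcon
    rw [this, Cardinal.mk_univ] at hlt
    exact lt_irrefl _ hlt
  obtain ⟨z, hz⟩ := hz
  -- the coding of subsets
  have hset : #(Set s) < #X := by
    rw [Cardinal.mk_set]
    exact hs.isStrongPrelimit hlt
  obtain ⟨q⟩ := (Cardinal.le_def _ _).1 hset.le
  -- the filtration
  let A : s → Set X := fun j => Set.Iic (j : X) ∪ (s ∪ (Set.range q ∪ {z}))
  have hAcard : ∀ j, #(A j) < #X := by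
    intro j
    have h1 : #(Set.Iic (j : X)) < #X := by
      have h3 : Set.Iic (j : X) = insert (j : X) (Set.Iio (j : X)) := by
        ext y; simp [le_iff_eq_or_lt]
      rw [h3]
      exact (Cardinal.mk_insert_le).trans_lt (Cardinal.add_lt_of_lt hinf
        (Cardinal.mk_Iio_lt (j : X) hord) (Cardinal.one_lt_aleph0.trans_le hinf))
    have h2 : #(Set.range q) < #X := Cardinal.mk_range_le.trans_lt hset
    have h3 : #({z} : Set X) < #X := by
      rw [Cardinal.mk_singleton]
      exact Cardinal.one_lt_aleph0.trans_le hinf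
    refine (Cardinal.mk_union_le _ _).trans_lt (Cardinal.add_lt_of_lt hinf h1 ?_)
    refine (Cardinal.mk_union_le _ _).trans_lt (Cardinal.add_lt_of_lt hinf hlt ?_)
    exact (Cardinal.mk_union_le _ _).trans_lt (Cardinal.add_lt_of_lt hinf h2 h3)
  have hAmono : Monotone A := by
    intro i j hij
    exact Set.union_subset_union_left _ (Set.Iic_subset_Iic.2 hij)
  have hlev : ∀ x : X, ∃ j : s, x ∈ A j := by
    intro x
    obtain ⟨y, hy, hxy⟩ := hsc x
    exact ⟨⟨y, hy⟩, Or.inl hxy⟩
  choose lev hlev using hlev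
  have hne : Nonempty s := by
    have hX : Nonempty X := Cardinal.mk_ne_zero_iff.1 (ne_of_gt (Cardinal.aleph0_pos.trans_le hinf))
    obtain ⟨x⟩ := hX
    exact ⟨lev x⟩
  -- the bounded functions are few
  let F : s → Type u := fun j => {f : X → X // (∀ x, x ∉ A j → f x = z) ∧ ∀ x, f x ∈ A j}
  have hF : ∀ j, #(F j) < #X := by
    intro j
    have h1 : #(F j) ≤ #(A j → A j) := by
      refine Cardinal.mk_le_of_injective (f := fun f : F j => fun x : A j =>
        (⟨f.1 x, f.2.2 x⟩ : A j)) ?_
      intro f g hfg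
      apply Subtype.ext
      funext x
      by_cases hx : x ∈ A j
      · exact congrArg Subtype.val (congrFun hfg ⟨x, hx⟩)
      · rw [f.2.1 x hx, g.2.1 x hx]
    refine h1.trans_lt ?_
    have h2 : #(A j → A j) = #(A j) ^ #(A j) := by simp
    rw [h2]
    have h3 : #(A j) ^ #(A j) ≤ (2 ^ #(A j)) ^ #(A j) :=
      Cardinal.power_le_power_right (Cardinal.cantor _).le
    refine h3.trans_lt ?_
    rw [← Cardinal.power_mul]
    exact hs.isStrongPrelimit (Cardinal.mul_lt_of_lt hinf (hAcard j) (hAcard j))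
  -- some member of the filtration is large
  have hbig : ∀ c : Cardinal.{u}, c < #X → ∃ j, c ≤ #(A j) := by
    intro c hc
    by_contra hcon
    push Not at hcon
    have h1 : (⋃ j, A j) = Set.univ := Set.eq_univ_of_forall fun x => Set.mem_iUnion.2 ⟨_, hlev x⟩
    have h2 : #X ≤ #s * c := by
      rw [← Cardinal.mk_univ, ← h1]
      refine (Cardinal.mk_iUnion_le A).trans ?_
      exact mul_le_mul' le_rfl (ciSup_le' fun j => (hcon j).le)
    exact absurd h2 (not_le.2 (Cardinal.mul_lt_of_lt hinf hlt hc))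
  have hg : ∀ j, ∃ k, #(F j) ≤ #(A k) := fun j => hbig _ (hF j)
  choose g hg using hg
  have hemb : ∀ j, Nonempty (F j ↪ A (g j)) := fun j => (Cardinal.le_def _ _).1 (hg j)
  choose φ _ using fun j => exists_true_iff_nonempty.2 (hemb j)
  refine ⟨s, inferInstance, hne, ⟨{
    w := Subtype.val
    w_inj := Subtype.val_injective
    z := z
    w_ne := fun i h => hz (h ▸ i.2)
    A := A
    A_mono := hAmono
    lev := lev
    mem_lev := hlev
    w_mem := fun i j => Or.inr (Or.inl i.2)
    z_mem := fun j => Or.inr (Or.inr (Or.inr rfl))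
    q := q
    q_inj := q.injective
    q_mem := fun Y j => Or.inr (Or.inr (Or.inl ⟨Y, rfl⟩))
    small := ?_
    e := fun j c => if h : ∃ f : F j, (φ j f : X) = c then h.choose.1 else fun _ => z
    g := g
    e_surj := ?_ }⟩⟩
  · intro S hS f
    rw [not_isCofinal_iff] at hS
    obtain ⟨b, hb⟩ := hS
    have h1 : #S < #s := (Cardinal.mk_le_mk_of_subset (t := Set.Iio b) fun i hi => hb i hi).trans_lt
      (Cardinal.mk_Iio_lt b hsord)
    have h2 : ¬ IsCofinal ((fun i => lev (f i)) '' S) := by
      intro hcof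
      have h3 := Order.cof_le hcof
      rw [hcofs] at h3
      exact absurd (h3.trans Cardinal.mk_image_le) (not_le.2 h1)
    rw [not_isCofinal_iff] at h2
    obtain ⟨j, hj⟩ := h2
    exact ⟨j, fun i hi => hAmono (hj _ ⟨i, hi, rfl⟩).le (hlev (f i))⟩
  · intro j f h1 h2
    let f' : F j := ⟨f, h1, h2⟩
    refine ⟨φ j f', (φ j f').2, ?_⟩
    have h3 : ∃ f'' : F j, (φ j f'' : X) = φ j f' := ⟨f', rfl⟩
    show (if h : ∃ f'' : F j, (φ j f'' : X) = φ j f' then h.choose.1 else fun _ => z) = f
    rw [dif_pos h3]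
    have h4 : h3.choose = f' := (φ j).injective (Subtype.ext h3.choose_spec)
    rw [h4]

/-- **Theorem.** The clone lattice on a set of singular strong limit cardinality is dually
atomic. -/
theorem duallyAtomic (hs : (#X).IsStrongLimit) (hsing : (#X).IsSingular) : DuallyAtomic X := by
  classical
  intro C hC hCne
  by_contra hcon
  push Not at hcon
  have hNP : NP C := ⟨hC, hCne, fun M hM hCM => hcon M hM hCM⟩
  obtain ⟨I, _, _, ⟨d⟩⟩ := exists_data hs hsing
  have hinf : Infinite X := Cardinal.infinite_iff.2 hs.aleph0_le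
  -- a pairing function
  have hpair : #(X × X) ≤ #X := by
    rw [Cardinal.mk_prod, Cardinal.lift_id]
    exact (Cardinal.mul_eq_self hs.aleph0_le).le
  obtain ⟨p⟩ := (Cardinal.le_def _ _).1 hpair
  have hinj : ∀ a b c e, p (a, b) = p (c, e) → a = c ∧ b = e := by
    intro a b c e h
    exact Prod.mk.inj (p.injective h)
  let o1 : Oper X := ⟨1, fun x => p (x 0, x 1)⟩
  let o2 : Oper X := ⟨2, fun x => d.E (x 0) (x 1) (x 2)⟩
  let o3 : Oper X := ⟨0, fun x => d.rho (x 0)⟩
  have h1 := hNP.insert o1
  have h2 := h1.insert o2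
  have h3 := h2.insert o3
  set C3 := gen (insert o3 (gen (insert o2 (gen (insert o1 C))))) with hC3
  have m3 : o3 ∈ C3 := subset_gen _ (mem_insert _ _)
  have m2 : o2 ∈ C3 := subset_gen _ (Or.inr (subset_gen _ (mem_insert _ _)))
  have m1 : o1 ∈ C3 := subset_gen _ (Or.inr (subset_gen _ (Or.inr (subset_gen _ (mem_insert _ _)))))
  have h4 := h3.consts (p := fun a b => p (a, b)) m1 hinj
  have hsub : C3 ⊆ gen (C3 ∪ range cst) := subset_union_left.trans (subset_gen _)
  have hgood : d.Good (gen (C3 ∪ range cst)) :=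
    ⟨h4.clone, fun x => subset_gen _ (Or.inr ⟨x, rfl⟩), hsub m2, hsub m3⟩
  obtain ⟨M, hM, hMC⟩ := hgood.exists_precomplete (p := fun a b => p (a, b)) (hsub m1) hinj h4.ne
  exact h4.no M hM hMC

end Pool.Agent.H690R2.CL
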